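import Pool.Agent.H34.FL.Defs

/-!
B3: image measures: sums and harmonic functions.
-/

namespace Pool.Agent.H34.FL

open Pool.Agent.H34.LS

universe u v

private theorem b3_fwd {G : Type u} {G' : Type v} (theta : G → G') {mu : G → ℝ} (h : IsProb mu)
    (φ : G' → ℝ) (a : ℝ) (ha : HasSum (fun g => mu g * φ (theta g)) a) :
    HasSum (fun y => image theta mu y * φ y) a := by
  have h1 : HasSum ((fun g => mu g * φ (theta g)) ∘ (Equiv.sigmaFiberEquiv theta)) a :=
    (Equiv.sigmaFiberEquiv theta).hasSum_iff.2 ha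
  refine HasSum.sigma h1 fun y => ?_
  have h2 : Summable fun c : {g : G // theta g = y} => mu c :=
    h.2.summable.comp_injective Subtype.val_injective
  have h3 : HasSum (fun c : {g : G // theta g = y} => mu c * φ y) (image theta mu y * φ y) :=
    h2.hasSum.mul_right (φ y)
  have h4 : (fun c : {g : G // theta g = y} =>
      ((fun g => mu g * φ (theta g)) ∘ (Equiv.sigmaFiberEquiv theta)) ⟨y, c⟩) =
      fun c : {g : G // theta g = y} => mu c * φ y := by
    funext c
    change mu c.1 * φ (theta c.1) = mu c.1 * φ y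
    rw [c.2]
  rw [h4]
  exact h3

variable {G : Type u} [Group G] {G' : Type v} [Group G']

omit [Group G] [Group G'] in
theorem image_hasSum (theta : G → G') {mu : G → ℝ} (h : IsProb mu) {φ : G' → ℝ} {C : ℝ}
    (hφ : ∀ y, |φ y| ≤ C) (a : ℝ) :
    HasSum (fun g => mu g * φ (theta g)) a ↔ HasSum (fun y => image theta mu y * φ y) a := by
  refine ⟨b3_fwd theta h φ a, fun ha => ?_⟩
  have h1 : Summable fun g => mu g * φ (theta g) := by
    refine Summable.of_norm_bounded (g := fun g => mu g * C) (h.2.summable.mul_right C) fun g => ?_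
    rw [norm_mul, Real.norm_eq_abs, Real.norm_eq_abs, abs_of_nonneg (h.1 g)]
    exact mul_le_mul_of_nonneg_left (hφ _) (h.1 g)
  have h2 := b3_fwd theta h φ _ h1.hasSum
  rw [ha.unique h2]
  exact h1.hasSum

theorem image_harm (theta : G →* G') (ht : Function.Surjective theta) {mu : G → ℝ} (h : IsProb mu)
    (f' : G' → ℝ) : BddHarm mu (fun g => f' (theta g)) ↔ BddHarm (image theta mu) f' := by
  constructor
  · rintro ⟨⟨C, hC⟩, h1⟩
    have hC' : ∀ y, |f' y| ≤ C := fun y => by
      obtain ⟨g, rfl⟩ := ht y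
      exact hC g
    refine ⟨⟨C, hC'⟩, fun y => ?_⟩
    obtain ⟨g, rfl⟩ := ht y
    have h2 := h1 g
    simp only [map_mul] at h2
    exact (image_hasSum (theta : G → G') h (φ := fun y => f' (theta g * y)) (fun y => hC' _) _).1 h2
  · rintro ⟨⟨C, hC⟩, h1⟩
    refine ⟨⟨C, fun g => hC _⟩, fun g => ?_⟩
    have h2 := (image_hasSum (theta : G → G') h (φ := fun y => f' (theta g * y))
      (fun y => hC _) _).2 (h1 (theta g))
    simp only [map_mul]
    exact h2

end Pool.Agent.H34.FL
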