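import Pool.Agent.H34.FL.B1
import Pool.Agent.H34.FL.B3

/-!
B: image measures (parts B1 and B3).
-/
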