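import Pool.Agent.H34.FL.Defs

/-!
B2: finitely supported measures: `image = push` (LS/Defs; `push` is a `finsum` over the fibre, `image` a
`tsum` over the subtype: `tsum_eq_finsum` needs finite support, `finsum_subtype_eq_finsum_cond` or
`finsum_mem_eq_...`), `IsProb`, and the two forms of the Liouville property (`Harmonic` in LS/Defs is a
`finsum`; `hasSum_sum_of_ne_finset_zero`, `finsum_eq_sum_of_support_subset`).
-/

namespace Pool.Agent.H34.FL

open Pool.Agent.H34.LS

universe u v

variable {G : Type u} [Group G] {G' : Type v} [Group G']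

private theorem b2_hasSum {a : Type*} {f : a → ℝ} (hf : (Function.support f).Finite) :
    HasSum f (∑ᶠ x, f x) := by
  rw [finsum_eq_sum f hf]
  refine hasSum_sum_of_ne_finset_zero fun b hb => ?_
  by_contra h
  exact hb (hf.mem_toFinset.2 h)

private theorem b2_fin {mu : G → ℝ} (h : IsFSProb mu) (f : G → ℝ) (g : G) :
    (Function.support (fun x => mu x * f (g * x))).Finite :=
  h.finite.subset fun x hx => by
    intro h0
    apply hx
    simp [h0]

private theorem b2_iff {mu : G → ℝ} (h : IsFSProb mu) (f : G → ℝ) :
    (∀ g, HasSum (fun x => mu x * f (g * x)) (f g)) ↔ Harmonic mu f := by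
  constructor
  · intro h1 g
    exact (h1 g).unique (b2_hasSum (b2_fin h f g))
  · intro h1 g
    have h2 := b2_hasSum (b2_fin h f g)
    rw [← h1 g] at h2
    exact h2

theorem prob_of_fs {mu : G → ℝ} (h : IsFSProb mu) : IsProb mu := by
  refine ⟨h.nonneg, ?_⟩
  have h1 := b2_hasSum h.finite
  rwa [h.total] at h1

theorem image_push (theta : G → G') {mu : G → ℝ} (h : IsFSProb mu) :
    image theta mu = push theta mu := by
  funext y
  have h1 : (Function.support (fun g : {g : G // theta g = y} => mu g)).Finite :=
    (h.finite.preimage (Subtype.val_injective.injOn (s := Subtype.val ⁻¹' Function.support mu)))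
  unfold image push
  rw [tsum_eq_finsum h1]
  exact finsum_set_coe_eq_finsum_mem (f := fun g => mu g) (theta ⁻¹' {y})

theorem liouville_fs {mu : G → ℝ} (h : IsFSProb mu) : Liouville mu ↔ TrivialBoundary mu := by
  constructor
  · intro h1 f hb hf
    exact h1 f ⟨hb, (b2_iff h f).2 hf⟩
  · intro h1 f hf
    exact h1 f hf.1 ((b2_iff h f).1 hf.2)

end Pool.Agent.H34.FL
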