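import Pool.Agent.H34.FL.Defs
import Pool.Agent.H34.LS.T4

/-!
C: the kernel of `F / M → G'` is a union of finite normal subgroups. For `x = mk y` in the kernel `y` lies in
`pi.ker = ⨆ K j`, so in some `K j` (`Subgroup.mem_iSup_of_directed hm.directed_le`). Take
`N = (K j).map (QuotientGroup.mk' M)`: normal (image of a normal subgroup under a surjection,
`Subgroup.Normal.map`), contained in the kernel, finite: with `U` from `hloc`, `F / U` is finite and the elements of
`N` are determined by the class of a representative in `K j` modulo `U`: if `y, y' ∈ K j` and `y⁻¹ y' ∈ U` then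
`y⁻¹ y' ∈ U ⊓ K j ≤ M`. (`Set.Finite` as the range of a function on the finite set of classes, or `Set.Finite.of_surjOn`,
or cardinality: choose for each class in `F / U` meeting `K j` a representative.) See LS/L1 for a similar argument.
-/

namespace Pool.Agent.H34.FL

open Pool.Agent.H34.LS

universe u v

theorem ker_union {F : Type u} [Group F] {G : Type v} [Group G] {K : ℕ → Subgroup F}
    (hn : ∀ j, (K j).Normal) (hm : Monotone K) (pi : F →* G) (hker : pi.ker = ⨆ j, K j)
    (M : Subgroup F) [M.Normal] (hM : M ≤ pi.ker)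
    (hloc : ∀ j, ∃ U : Subgroup F, U.Normal ∧ U.FiniteIndex ∧ U ⊓ K j ≤ M) (x : F ⧸ M)
    (hx : QuotientGroup.lift M pi hM x = 1) :
    ∃ N : Subgroup (F ⧸ M), N.Normal ∧ (N : Set (F ⧸ M)).Finite ∧ x ∈ N ∧
      N ≤ (QuotientGroup.lift M pi hM).ker := by
  obtain ⟨y, rfl⟩ := QuotientGroup.mk_surjective x
  have hy : y ∈ pi.ker := by
    rw [MonoidHom.mem_ker]
    exact hx
  rw [hker, Subgroup.mem_iSup_of_directed hm.directed_le] at hy
  obtain ⟨j, hj⟩ := hy
  have hKker : K j ≤ pi.ker := by
    rw [hker]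
    exact le_iSup K j
  obtain ⟨U, hU1, hU2, hU3⟩ := hloc j
  have hfin : Finite (F ⧸ U) := Subgroup.finite_quotient_of_finiteIndex
  have hch : ∀ s : ((K j).map (QuotientGroup.mk' M)), ∃ z : F, z ∈ K j ∧ (QuotientGroup.mk z : F ⧸ M) = s.1 := by
    rintro ⟨s, hs⟩
    obtain ⟨z, hz, rfl⟩ := Subgroup.mem_map.1 hs
    exact ⟨z, hz, rfl⟩
  choose r hr1 hr2 using hch
  have hinj : Function.Injective fun s => (QuotientGroup.mk (r s) : F ⧸ U) := by
    intro s s' h
    apply Subtype.ext
    rw [← hr2 s, ← hr2 s']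
    exact QuotientGroup.eq.2 (hU3 ⟨QuotientGroup.eq.1 h, (K j).mul_mem ((K j).inv_mem (hr1 s)) (hr1 s')⟩)
  have hN : Finite ((K j).map (QuotientGroup.mk' M)) := Finite.of_injective _ hinj
  refine ⟨(K j).map (QuotientGroup.mk' M), (hn j).map _ (QuotientGroup.mk'_surjective M), ?_, ?_, ?_⟩
  · exact Set.toFinite _
  · exact Subgroup.mem_map.2 ⟨y, hj, rfl⟩
  · rw [Subgroup.map_le_iff_le_comap]
    intro z hz
    rw [Subgroup.mem_comap, MonoidHom.mem_ker]
    exact hKker hz

end Pool.Agent.H34.FL
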