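import Pool.Agent.H34.FL.Defs
import Pool.Agent.H34.LS.T4

/-!
D2: `tower2`, the proof of `tower` (LS/T4) with the sequence `N i` of `seq_exists` and its properties
(`GoodN`: normal, `Sep`, `HypQ`) kept, so that `F / M` is a limit (with `pi = QuotientGroup.mk' M`, `ker_mk'`).
-/

namespace Pool.Agent.H34.FL

open Pool.Agent.H34.LS

universe u

private theorem d2_iSup_normal {F : Type u} [Group F] {N : ℕ → Subgroup F}
    (hN : ∀ i, (N i).Normal) (hmono : Monotone N) : (⨆ i, N i).Normal := by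
  constructor
  intro x hx g
  rw [Subgroup.mem_iSup_of_directed hmono.directed_le] at hx ⊢
  obtain ⟨i, hi⟩ := hx
  exact ⟨i, (hN i).conj_mem x hi g⟩

private theorem d2_resFinite {F : Type u} [Group F] (N : Subgroup F) [N.Normal] (h : Sep N) :
    ResFinite (F ⧸ N) := by
  intro g hg
  obtain ⟨x, rfl⟩ := QuotientGroup.mk'_surjective N g
  have hx : x ∉ N := by
    intro hx
    exact hg ((QuotientGroup.eq_one_iff x).mpr hx)
  obtain ⟨U, hU1, hU2, hU3, hU4⟩ := h x hx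
  refine ⟨U.map (QuotientGroup.mk' N),
    hU1.map (QuotientGroup.mk' N) (QuotientGroup.mk'_surjective N), ⟨?_⟩, ?_⟩
  · rw [Subgroup.index_map_eq _ (QuotientGroup.mk'_surjective N)
      (by rw [QuotientGroup.ker_mk']; exact hU3)]
    exact hU2.index_ne_zero
  · rintro ⟨y, hy, hyx⟩
    have h1 : y⁻¹ * x ∈ N := QuotientGroup.eq.mp hyx
    have h2 : y * (y⁻¹ * x) ∈ U := U.mul_mem hy (hU3 h1)
    rw [mul_inv_cancel_left] at h2
    exact hU4 h2

theorem tower2 {F : Type u} [Group F] {S : Set F} (hf : S.Finite) (hS : Subgroup.closure S = ⊤)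
    {K : ℕ → Subgroup F} (hn : ∀ j, (K j).Normal) (hm : Monotone K) (hsep : ∀ j, Sep (K j))
    (hh : ∀ j, ∃ e : ℝ, HypQ S (K j) e) :
    ∃ (M : Subgroup F) (_ : M.Normal), M ≤ (⨆ j, K j) ∧ LacunaryHyperbolic (F ⧸ M) ∧
      LimitRFHyp (F ⧸ M) ∧
      (∀ j, ∃ U : Subgroup F, U.Normal ∧ U.FiniteIndex ∧ U ⊓ K j ≤ M) := by
  obtain ⟨N, r, hg, hst⟩ := seq_exists hf hS hn hm hsep hh
  have hmono : Monotone N := monotone_nat_of_le_succ fun i => (hst i).1
  have hMn : (⨆ i, N i).Normal := d2_iSup_normal (fun i => (hg i).1) hmono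
  refine ⟨⨆ i, N i, hMn, ?_, lacunary_limit hf hS hg hst _ rfl hMn, ?_, ?_⟩
  · refine iSup_le fun i => ?_
    obtain ⟨j, hj⟩ := (hg i).2.1
    exact hj.trans (le_iSup K j)
  · refine ⟨F, inferInstance, S, N, fun i => (hg i).1, QuotientGroup.mk' (⨆ i, N i), hf, hS,
      hmono, fun i => ⟨?_, ?_⟩, QuotientGroup.mk'_surjective _, QuotientGroup.ker_mk' _⟩
    · have := (hg i).1
      exact d2_resFinite (N i) (hg i).2.2.1
    · obtain ⟨e, _, _, he⟩ := (hg i).2.2.2
      exact ⟨e, he⟩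
  · intro j
    obtain ⟨_, _, _, _, U, hU, hUf, hUK, _⟩ := hst j
    exact ⟨U, hU, hUf, hUK.trans (le_iSup N (j + 1))⟩

end Pool.Agent.H34.FL
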