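import Pool.Agent.H34.FL.D1
import Pool.Agent.H34.FL.D2

/-!
D: translation between `LimitRFHyp` and the data of the tower theorem (parts D1 and D2).
-/
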