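import Pool.Agent.H34.FL.A
import Pool.Agent.H34.FL.B
import Pool.Agent.H34.FL.B2
import Pool.Agent.H34.FL.C
import Pool.Agent.H34.FL.D
import Pool.Agent.H34.LS.M1
import Pool.Agent.H34.LS.L1

/-!
Fin: assembly.
-/

namespace Pool.Agent.H34.FL

open Pool.Agent.H34.LS

universe u v

theorem factor {G : Type u} [Group G] {G' : Type v} [Group G'] (theta : G →* G')
    (ht : Function.Surjective theta)
    (hker : ∀ x, theta x = 1 → ∃ N : Subgroup G, N.Normal ∧ (N : Set G).Finite ∧ x ∈ N ∧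
      N ≤ theta.ker) {mu : G → ℝ} (hmu : IsProb mu) (hg : Generating mu) (f : G → ℝ) :
    BddHarm mu f ↔
      ∃ f' : G' → ℝ, BddHarm (image theta mu) f' ∧ f = fun g => f' (theta g) := by
  constructor
  · intro hf
    have hinv : ∀ x y, theta x = theta y → f x = f y := by
      intro x y hxy
      obtain ⟨N, hN, hfin, hx, _⟩ := hker (y⁻¹ * x) (by rw [map_mul, map_inv, hxy, inv_mul_cancel])
      have h1 := fin_inv hmu hg hf hN hfin y hx
      rwa [mul_inv_cancel_left] at h1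
    have ht2 := ht
    choose sec hsec using ht2
    have hfe : f = fun g => (fun y => f (sec y)) (theta g) := by
      funext g
      exact hinv _ _ (hsec (theta g)).symm
    refine ⟨fun y => f (sec y), ?_, hfe⟩
    rw [← image_harm theta ht hmu]
    rw [← hfe]
    exact hf
  · rintro ⟨f', hf', rfl⟩
    exact (image_harm theta ht hmu f').2 hf'

theorem liouville_iff {G : Type u} [Group G] {G' : Type v} [Group G'] (theta : G →* G')
    (ht : Function.Surjective theta)
    (hker : ∀ x, theta x = 1 → ∃ N : Subgroup G, N.Normal ∧ (N : Set G).Finite ∧ x ∈ N ∧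
      N ≤ theta.ker) {mu : G → ℝ} (hmu : IsProb mu) (hg : Generating mu) :
    Liouville mu ↔ Liouville (image theta mu) := by
  constructor
  · intro h f' hf' x y
    obtain ⟨a, rfl⟩ := ht x
    obtain ⟨b, rfl⟩ := ht y
    exact h (fun g => f' (theta g)) ((factor theta ht hker hmu hg _).2 ⟨f', hf', rfl⟩) a b
  · intro h f hf x y
    obtain ⟨f', hf', rfl⟩ := (factor theta ht hker hmu hg f).1 hf
    exact h f' hf' _ _

theorem lift_limit (G' : Type u) [Group G'] (hG' : LimitRFHyp G') :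
    ∃ (G : Type u) (_ : Group G) (theta : G →* G'), LacunaryHyperbolic G ∧ LimitRFHyp G ∧
      (LocFinByZ G' → LocFinByZ G) ∧ Function.Surjective theta ∧
      (∀ x, theta x = 1 → ∃ N : Subgroup G, N.Normal ∧ (N : Set G).Finite ∧ x ∈ N ∧
        N ≤ theta.ker) ∧
      (∀ mu : G → ℝ, IsProb mu → Generating mu →
        (∀ f : G → ℝ, BddHarm mu f ↔
          ∃ f' : G' → ℝ, BddHarm (image theta mu) f' ∧ f = fun g => f' (theta g)) ∧
        (Liouville mu ↔ Liouville (image theta mu))) ∧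
      (∀ mu' : G' → ℝ, IsFSProb mu' → Generating mu' → Symm mu' →
        ∃ mu : G → ℝ, IsFSProb mu ∧ Generating mu ∧ Symm mu ∧ image theta mu = mu') := by
  obtain ⟨F, iF, S, K, pi, hSf, hS, hKn, hKm, hsep, hhyp, hpi, hker⟩ := limit_data hG'
  obtain ⟨M, hMn, hMK, hlac, hlim, hloc⟩ := tower2 hSf hS hKn hKm hsep hhyp
  have hMker : M ≤ pi.ker := by rw [hker]; exact hMK
  have hth : Function.Surjective (QuotientGroup.lift M pi hMker) := by
    intro y
    obtain ⟨x, rfl⟩ := hpi y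
    exact ⟨QuotientGroup.mk x, rfl⟩
  have hFG : Group.FG F := ⟨⟨hSf.toFinset, by simpa using hS⟩⟩
  have hG : Group.FG (F ⧸ M) :=
    Group.fg_of_surjective (f := QuotientGroup.mk' M) (QuotientGroup.mk'_surjective M)
  have hk := ker_union hKn hKm pi hker M hMker hloc
  refine ⟨F ⧸ M, inferInstance, QuotientGroup.lift M pi hMker, hlac, hlim,
    fun h => locFinByZ_quot hKm pi hpi hker M hMker hloc h, hth, hk, ?_, ?_⟩
  · intro mu h hg
    exact ⟨factor _ hth hk h hg, liouville_iff _ hth hk h hg⟩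
  · intro mu' h hg hs
    obtain ⟨mu, h1, h2, h3, h4⟩ := lift_measure hG (QuotientGroup.lift M pi hMker) hth h hg hs
    exact ⟨mu, h1, h2, h3, by rw [image_push _ h1, h4]⟩

theorem unstable_lift {G' : Type u} [Group G'] (hU : Unstable G') {G : Type u} [Group G]
    (theta : G →* G')
    (hL : ∀ mu : G → ℝ, IsProb mu → Generating mu → (Liouville mu ↔ Liouville (image theta mu)))
    (hlift : ∀ mu' : G' → ℝ, IsFSProb mu' → Generating mu' → Symm mu' →
        ∃ mu : G → ℝ, IsFSProb mu ∧ Generating mu ∧ Symm mu ∧ image theta mu = mu') :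
    Unstable G := by
  obtain ⟨m1, m2, ⟨a1, b1, c1, d1⟩, a2, b2, c2, d2⟩ := hU
  obtain ⟨n1, e1, f1, g1, h1⟩ := hlift m1 a1 b1 c1
  obtain ⟨n2, e2, f2, g2, h2⟩ := hlift m2 a2 b2 c2
  refine ⟨n1, n2, ⟨e1, f1, g1, ?_⟩, e2, f2, g2, ?_⟩
  · rw [hL n1 (prob_of_fs e1) f1, h1]
    exact d1
  · rw [hL n2 (prob_of_fs e2) f2, h2]
    exact d2

theorem main3 :
    (∀ (G' : Type u) [Group G'], LimitRFHyp G' →
      ∃ (G : Type u) (_ : Group G) (theta : G →* G'), LacunaryHyperbolic G ∧ LimitRFHyp G ∧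
        (LocFinByZ G' → LocFinByZ G) ∧ Function.Surjective theta ∧
        (∀ x, theta x = 1 → ∃ N : Subgroup G, N.Normal ∧ (N : Set G).Finite ∧ x ∈ N ∧
          N ≤ theta.ker) ∧
        (∀ mu : G → ℝ, IsProb mu → Generating mu →
          (∀ f : G → ℝ, BddHarm mu f ↔
            ∃ f' : G' → ℝ, BddHarm (image theta mu) f' ∧ f = fun g => f' (theta g)) ∧
          (Liouville mu ↔ Liouville (image theta mu))) ∧
        (∀ mu' : G' → ℝ, IsFSProb mu' → Generating mu' → Symm mu' →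
          ∃ mu : G → ℝ, IsFSProb mu ∧ Generating mu ∧ Symm mu ∧ image theta mu = mu')) ∧
    (∀ (G' : Type u) [Group G'], Group.FG G' → LocFinByZ G' → LimitRFHyp G') ∧
    ((∃ (G : Type u) (_ : Group G), LacunaryHyperbolic G ∧ LimitRFHyp G ∧ Unstable G) ↔
      ∃ (G' : Type u) (_ : Group G'), LimitRFHyp G' ∧ Unstable G') ∧
    ((∃ (G : Type u) (_ : Group G), LacunaryHyperbolic G ∧ LocFinByZ G ∧ Unstable G) ↔
      ∃ (G' : Type u) (_ : Group G'), Group.FG G' ∧ LocFinByZ G' ∧ Unstable G') := by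
  refine ⟨fun G' _ h => lift_limit G' h, fun G' _ h1 h2 => limit_of_locFin h1 h2, ⟨?_, ?_⟩,
    ⟨?_, ?_⟩⟩
  · rintro ⟨G, i, _, h1, h2⟩
    exact ⟨G, i, h1, h2⟩
  · rintro ⟨G', i, h1, h2⟩
    obtain ⟨G, iG, theta, hlac, hlim, _, _, _, hmu, hlift⟩ := lift_limit G' h1
    exact ⟨G, iG, hlac, hlim, unstable_lift h2 theta (fun mu a b => (hmu mu a b).2) hlift⟩
  · rintro ⟨G, i, ⟨S, hS, hS2, _⟩, h1, h2⟩
    exact ⟨G, i, ⟨⟨hS.toFinset, by simpa using hS2⟩⟩, h1, h2⟩
  · rintro ⟨G', i, h0, h1, h2⟩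
    obtain ⟨G, iG, theta, hlac, _, hloc, _, _, hmu, hlift⟩ :=
      lift_limit G' (limit_of_locFin h0 h1)
    exact ⟨G, iG, hlac, hloc h1, unstable_lift h2 theta (fun mu a b => (hmu mu a b).2) hlift⟩

end Pool.Agent.H34.FL
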