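import Pool.Agent.H34.LS.Defs

/-!
# Limits of residually finite hyperbolic groups and measures of arbitrary support: definitions
-/

namespace Pool.Agent.H34.FL

open Pool.Agent.H34.LS

universe u v

/-- `mu` is a probability measure on the set `G`, of arbitrary support, given by its weights. -/
def IsProb {G : Type u} (mu : G → ℝ) : Prop := (∀ g, 0 ≤ mu g) ∧ HasSum mu 1

/-- `f` is a bounded `mu`-harmonic function: `f g = ∑_h mu h * f (g h)`. -/
def BddHarm {G : Type u} [Group G] (mu f : G → ℝ) : Prop :=
  (∃ C, ∀ g, |f g| ≤ C) ∧ ∀ g, HasSum (fun h => mu h * f (g * h)) (f g)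

/-- the Poisson boundary of `(G, mu)` is trivial: every bounded `mu`-harmonic function is
constant. -/
def Liouville {G : Type u} [Group G] (mu : G → ℝ) : Prop :=
  ∀ f : G → ℝ, BddHarm mu f → ∀ x y, f x = f y

/-- the image of the measure `mu` under the map `p`. -/
noncomputable def image {G : Type u} {H : Type v} (p : G → H) (mu : G → ℝ) : H → ℝ :=
  fun h => ∑' g : {g : G // p g = h}, mu g

/-- residually finite groups. -/
def ResFinite (G : Type u) [Group G] : Prop :=
  ∀ g : G, g ≠ 1 → ∃ U : Subgroup G, U.Normal ∧ U.FiniteIndex ∧ g ∉ U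

/-- the word metric of the generating set `S` of `G` is hyperbolic (four point condition). -/
def Hyperbolic {G : Type u} [Group G] (S : Set G) : Prop :=
  ∃ e : ℝ, ∀ x y z t : G, wordDist S x y + wordDist S z t ≤
    max (wordDist S x z + wordDist S y t) (wordDist S x t + wordDist S y z) + e

/-- `G` is the direct limit of a sequence of residually finite hyperbolic groups
`F / K 0 → F / K 1 → ...`, where `F` is generated by the finite set `S`: `G` is isomorphic to
`F / ⋃ K j`. -/
def LimitRFHyp (G : Type u) [Group G] : Prop :=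
  ∃ (F : Type u) (_ : Group F) (S : Set F) (K : ℕ → Subgroup F) (_ : ∀ j, (K j).Normal)
    (pi : F →* G), S.Finite ∧ Subgroup.closure S = ⊤ ∧ Monotone K ∧
    (∀ j, ResFinite (F ⧸ K j) ∧ Hyperbolic ((QuotientGroup.mk' (K j)) '' S)) ∧
    Function.Surjective pi ∧ pi.ker = ⨆ j, K j

/-- there are two symmetric finitely supported generating probability measures on `G`, one with
trivial and one with non-trivial Poisson boundary. -/
def Unstable (G : Type u) [Group G] : Prop :=
  ∃ mu1 mu2 : G → ℝ, (IsFSProb mu1 ∧ Generating mu1 ∧ Symm mu1 ∧ Liouville mu1) ∧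
    (IsFSProb mu2 ∧ Generating mu2 ∧ Symm mu2 ∧ ¬ Liouville mu2)

end Pool.Agent.H34.FL
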