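import Pool.Agent.H34.FL.Defs

/-!
A: finite normal subgroups are invisible for bounded harmonic functions.
-/

namespace Pool.Agent.H34.FL

open Pool.Agent.H34.LS

universe u

theorem fin_inv {G : Type u} [Group G] {mu : G → ℝ} (hmu : IsProb mu) (hgen : Generating mu)
    {f : G → ℝ} (hf : BddHarm mu f) {N : Subgroup G} (hN : N.Normal) (hfin : (N : Set G).Finite)
    (g : G) {n : G} (hn : n ∈ N) : f (g * n) = f g := by
  obtain ⟨⟨C, hC⟩, hh⟩ := hf
  obtain ⟨hpos, hsum⟩ := hmu
  set D : Set ℝ := {r | ∃ g n n' : G, n ∈ N ∧ n' ∈ N ∧ r = f (g * n) - f (g * n')} with hD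
  have hDb : BddAbove D := by
    refine ⟨2 * C, ?_⟩
    rintro r ⟨g, n, n', _, _, rfl⟩
    have h1 := abs_le.1 (hC (g * n))
    have h2 := abs_le.1 (hC (g * n'))
    linarith [h1.2, h2.1]
  have hD0 : D.Nonempty := ⟨_, 1, 1, 1, N.one_mem, N.one_mem, rfl⟩
  set s : ℝ := sSup D with hs
  have hle : ∀ g n n' : G, n ∈ N → n' ∈ N → f (g * n) - f (g * n') ≤ s := fun g n n' h1 h2 =>
    le_csSup hDb ⟨g, n, n', h1, h2, rfl⟩
  have hconj : ∀ x n : G, n ∈ N → x⁻¹ * n * x ∈ N := by
    intro x n h
    have := hN.conj_mem n h x⁻¹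
    rwa [inv_inv] at this
  have hsh : ∀ g n x : G, g * n * x = g * x * (x⁻¹ * n * x) := by
    intro g n x
    group
  have hP : ∀ x : G, ∀ ε : ℝ, 0 < ε → ∃ δ : ℝ, 0 < δ ∧ ∀ g n n' : G, n ∈ N → n' ∈ N →
      s - δ ≤ f (g * n) - f (g * n') → s - ε ≤ f (g * n * x) - f (g * n' * x) := by
    intro x
    have hx : x ∈ Submonoid.closure (Function.support mu) := by
      rw [show Submonoid.closure (Function.support mu) = ⊤ from hgen]
      exact Submonoid.mem_top x
    induction hx using Submonoid.closure_induction with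
    | mem x hx =>
      intro ε hε
      have hxp : 0 < mu x := lt_of_le_of_ne (hpos x) (Ne.symm hx)
      refine ⟨mu x * ε, by positivity, ?_⟩
      intro g n n' h1 h2 h3
      have h4 : HasSum (fun y => mu y * (s - (f (g * n * y) - f (g * n' * y))))
          (1 * s - (f (g * n) - f (g * n'))) := by
        refine ((hsum.mul_right s).sub ((hh (g * n)).sub (hh (g * n')))).congr_fun ?_
        intro y
        ring
      have h5 : ∀ y, 0 ≤ mu y * (s - (f (g * n * y) - f (g * n' * y))) := by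
        intro y
        refine mul_nonneg (hpos y) ?_
        rw [hsh g n y, hsh g n' y]
        have := hle (g * y) _ _ (hconj y n h1) (hconj y n' h2)
        linarith
      have h6 := le_hasSum h4 x fun y _ => h5 y
      have h7 : mu x * (s - (f (g * n * x) - f (g * n' * x))) ≤ mu x * ε := by
        linarith
      have h8 := le_of_mul_le_mul_left h7 hxp
      linarith
    | one =>
      intro ε hε
      refine ⟨ε, hε, ?_⟩
      intro g n n' _ _ h3
      rwa [mul_one, mul_one]
    | mul x y _ _ ihx ihy =>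
      intro ε hε
      obtain ⟨δ1, hδ1, h1⟩ := ihy ε hε
      obtain ⟨δ, hδ, h2⟩ := ihx δ1 hδ1
      refine ⟨δ, hδ, ?_⟩
      intro g n n' hn hn' h3
      have h4 := h2 g n n' hn hn' h3
      rw [hsh g n x, hsh g n' x] at h4
      have h5 := h1 (g * x) _ _ (hconj x n hn) (hconj x n' hn') h4
      rw [← hsh g n x, ← hsh g n' x] at h5
      rwa [← mul_assoc, ← mul_assoc]
  have hs0 : s ≤ 0 := by
    by_contra hc
    rw [not_le] at hc
    have hP2 := fun x : G => hP x (s / 2) (by linarith)
    choose δ hδ hP3 using hP2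
    obtain ⟨m1, hm1, hmin⟩ := Set.exists_min_image (N : Set G) δ hfin ⟨1, N.one_mem⟩
    obtain ⟨r, ⟨g, n, n', hn, hn', rfl⟩, hr⟩ := exists_lt_of_lt_csSup hD0
      (show s - δ m1 < sSup D by rw [← hs]; linarith [hδ m1])
    obtain ⟨m0, hm0, hmax⟩ := Set.exists_max_image (N : Set G) (fun m => f (g * n' * m)) hfin
      ⟨1, N.one_mem⟩
    have h1 : s - δ m0 ≤ f (g * n) - f (g * n') := by
      have := hmin m0 hm0
      linarith
    have h2 := hP3 m0 g n n' hn hn' h1
    have h3 := hmax (n'⁻¹ * n * m0) (N.mul_mem (N.mul_mem (N.inv_mem hn') hn) hm0)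
    have h4 : g * n' * (n'⁻¹ * n * m0) = g * n * m0 := by group
    rw [h4] at h3
    linarith
  have h1 := hle g n 1 hn N.one_mem
  have h2 := hle g 1 n N.one_mem hn
  rw [mul_one] at h1 h2
  linarith

end Pool.Agent.H34.FL
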