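import Pool.Agent.H34.FL.Defs

/-!
B1: image measures: `image_prob`, `image_gen`.
-/

namespace Pool.Agent.H34.FL

open Pool.Agent.H34.LS

universe u v

variable {G : Type u} [Group G] {G' : Type v} [Group G']

omit [Group G] [Group G'] in
private theorem b1_sum (theta : G → G') {mu : G → ℝ} (h : Summable mu) (y : G') :
    Summable fun g : {g : G // theta g = y} => mu g :=
  h.comp_injective Subtype.val_injective

omit [Group G] [Group G'] in
theorem image_prob (theta : G → G') {mu : G → ℝ} (h : IsProb mu) : IsProb (image theta mu) := by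
  refine ⟨fun y => tsum_nonneg fun g => h.1 g, ?_⟩
  have h1 : HasSum (mu ∘ Equiv.sigmaFiberEquiv theta) 1 :=
    (Equiv.sigmaFiberEquiv theta).hasSum_iff.2 h.2
  exact h1.sigma fun y => (b1_sum theta h.2.summable y).hasSum

theorem image_gen (theta : G →* G') (ht : Function.Surjective theta) {mu : G → ℝ} (h : IsProb mu)
    (hg : Generating mu) : Generating (image theta mu) := by
  have hsub : theta '' Function.support mu ⊆ Function.support (image theta mu) := by
    rintro _ ⟨g, hgs, rfl⟩
    rw [Function.mem_support] at hgs ⊢
    have h0 : 0 < mu g := lt_of_le_of_ne (h.1 g) (Ne.symm hgs)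
    have h1 : mu g ≤ image theta mu (theta g) :=
      (b1_sum theta h.2.summable (theta g)).le_tsum
        (⟨g, rfl⟩ : {x : G // theta x = theta g}) fun j _ => h.1 j
    exact (lt_of_lt_of_le h0 h1).ne'
  have h2 : Submonoid.closure (Function.support mu) = ⊤ := hg
  show Submonoid.closure (Function.support (image theta mu)) = ⊤
  rw [eq_top_iff]
  intro y _
  obtain ⟨g, rfl⟩ := ht y
  have h3 : theta g ∈ (Submonoid.closure (Function.support mu)).map theta := by
    rw [h2]
    exact ⟨g, Submonoid.mem_top g, rfl⟩
  rw [MonoidHom.map_mclosure] at h3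
  exact Submonoid.closure_mono hsub h3

end Pool.Agent.H34.FL
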