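import Pool.Agent.H34.FL.Defs
import Pool.Agent.H34.LS.H7

/-!
D1: translation between `LimitRFHyp` and the data of the tower theorem. `ResFinite (F ⧸ N)` is `Sep N`
(comap, map along `QuotientGroup.mk' N`), `Hyperbolic` is `HypQ` (definitions unfold).
`limit_of_locFin` from `tower_data`.
-/

namespace Pool.Agent.H34.FL

open Pool.Agent.H34.LS

universe u

theorem sep_iff {F : Type u} [Group F] (N : Subgroup F) [N.Normal] :
    ResFinite (F ⧸ N) ↔ Sep N := by
  constructor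
  · intro h
    have h1 := sep_ker (QuotientGroup.mk' N) h
    rwa [QuotientGroup.ker_mk'] at h1
  · intro h g hg
    obtain ⟨x, rfl⟩ := QuotientGroup.mk'_surjective N g
    have hx : x ∉ N := fun hc => hg ((QuotientGroup.eq_one_iff x).mpr hc)
    obtain ⟨U, hU, hUf, hNU, hxU⟩ := h x hx
    refine ⟨U.map (QuotientGroup.mk' N), hU.map _ (QuotientGroup.mk'_surjective N), ?_, ?_⟩
    · refine ⟨fun h0 => hUf.index_ne_zero ?_⟩
      have h3 : (U.map (QuotientGroup.mk' N)).index = U.index := by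
        rw [Subgroup.index_map, QuotientGroup.ker_mk', sup_eq_left.mpr hNU,
          MonoidHom.range_eq_top.mpr (QuotientGroup.mk'_surjective N), Subgroup.index_top, mul_one]
      rw [← h3]
      exact h0
    · rintro ⟨y, hy, hxy⟩
      apply hxU
      have h4 : y⁻¹ * x ∈ N := QuotientGroup.eq.mp hxy
      have h5 := U.mul_mem hy (hNU h4)
      rwa [mul_inv_cancel_left] at h5

theorem limit_data {G : Type u} [Group G] (h : LimitRFHyp G) :
    ∃ (F : Type u) (_ : Group F) (S : Set F) (K : ℕ → Subgroup F) (pi : F →* G),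
      S.Finite ∧ Subgroup.closure S = ⊤ ∧ (∀ j, (K j).Normal) ∧ Monotone K ∧
      (∀ j, Sep (K j)) ∧ (∀ j, ∃ e : ℝ, HypQ S (K j) e) ∧ Function.Surjective pi ∧
      pi.ker = ⨆ j, K j := by
  obtain ⟨F, iF, S, K, hn, pi, hf, hS, hm, hj, hs, hk⟩ := h
  refine ⟨F, iF, S, K, pi, hf, hS, hn, hm, fun j => ?_, fun j => ?_, hs, hk⟩
  · exact (sep_iff (K j)).mp (hj j).1
  · obtain ⟨e, he⟩ := (hj j).2
    exact ⟨e, hn j, he⟩

theorem limit_of_locFin {G : Type u} [Group G] (hfg : Group.FG G) (h : LocFinByZ G) :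
    LimitRFHyp G := by
  obtain ⟨F, iF, S, K, pi, hf, hS, hn, hm, hsep, hh, hs, hk⟩ := tower_data G hfg h
  refine ⟨F, iF, S, K, hn, pi, hf, hS, hm, fun j => ⟨?_, ?_⟩, hs, hk⟩
  · exact (sep_iff (K j)).mpr (hsep j)
  · obtain ⟨e, hN, he⟩ := hh j
    exact ⟨e, he⟩

end Pool.Agent.H34.FL
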